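import Mathlib

/-!
# MP_f1f412_co: stars refute the characterisation of globally rigid squares

For every `n ≥ 5` the star `G` with `n` vertices has no cycles, its square is the complete graph,
hence globally rigid in `ℝ³` and `4`-connected, but `5G` does not contain six edge-disjoint spanning
trees.  More generally `5G` is never highly `6`-tree-connected when `G` has a vertex of degree one.
-/

open SimpleGraph

namespace Pool.Agent.Results.MP_f1f412_co.StarCounterexample

/-- Euclidean `3`-space. -/
abbrev E3 : Type := EuclideanSpace ℝ (Fin 3)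

section

variable {V : Type}

/-- The framework `(H, p)` in `ℝ³` is globally rigid. -/
def GloballyRigid (H : SimpleGraph V) (p : V → E3) : Prop :=
  ∀ q : V → E3, (∀ u v, H.Adj u v → dist (q u) (q v) = dist (p u) (p v)) →
    ∀ u v, dist (q u) (q v) = dist (p u) (p v)

/-- The coordinates of `p` are algebraically independent over `ℚ`. -/
def Generic (p : V → E3) : Prop := AlgebraicIndependent ℚ fun x : V × Fin 3 => p x.1 x.2

/-- The square of a graph. -/
def square (G : SimpleGraph V) : SimpleGraph V where
  Adj u v := u ≠ v ∧ (G.Adj u v ∨ ∃ w, G.Adj u w ∧ G.Adj w v)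
  symm := ⟨fun u v h => ⟨h.1.symm, h.2.elim (fun h => Or.inl h.symm)
    fun ⟨w, h1, h2⟩ => Or.inr ⟨w, h2.symm, h1.symm⟩⟩⟩
  loopless := ⟨fun _ h => h.1 rfl⟩

/-- `k`-connected: deleting any `k - 1` vertices leaves a connected graph. -/
def KConnected (k : ℕ) (H : SimpleGraph V) : Prop :=
  ∀ S : Finset V, S.card + 1 = k → (H.induce {v | v ∉ S}).Connected

end

/-- Multigraphs with vertex set `V`. -/
structure Multigraph (V : Type) where
  /-- the edges -/
  E : Type
  /-- the ends of the edges -/
  ends : E → Sym2 V

variable {V : Type}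

/-- The multigraph `kG`: every edge of `G` is replaced by `k` parallel copies. -/
def times (k : ℕ) (G : SimpleGraph V) : Multigraph V := ⟨G.edgeSet × Fin k, fun e => e.1.1⟩

/-- A set `T` of edges forms a spanning tree: it contains no loops and no parallel edges, and the
simple graph formed by it is a tree on all vertices. -/
def Multigraph.IsSpanningTree (M : Multigraph V) (T : Set M.E) : Prop :=
  (∀ e ∈ T, ¬ (M.ends e).IsDiag) ∧ Set.InjOn M.ends T ∧
    (SimpleGraph.fromEdgeSet (M.ends '' T)).IsTree

/-- There are `k` pairwise edge-disjoint spanning trees consisting of edges in `F`. -/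
def Multigraph.TreeConnected (M : Multigraph V) (F : Set M.E) (k : ℕ) : Prop :=
  ∃ T : Fin k → Set M.E, (∀ i, T i ⊆ F ∧ M.IsSpanningTree (T i)) ∧
    Pairwise fun i j => Disjoint (T i) (T j)

/-- Highly `k`-tree-connected: deleting any single edge leaves `k` edge-disjoint spanning trees. -/
def Multigraph.HighlyTreeConnected (M : Multigraph V) (k : ℕ) : Prop :=
  ∀ e : M.E, M.TreeConnected {f | f ≠ e} k

/-- `5G` has no six edge-disjoint spanning trees if some vertex is incident with only one edge. -/
theorem not_treeConnected {G : SimpleGraph V} {v u : V} (huv : u ≠ v) {e₀ : Sym2 V}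
    (hv : ∀ e ∈ G.edgeSet, v ∈ e → e = e₀) (F : Set (times 5 G).E) :
    ¬ (times 5 G).TreeConnected F 6 := by
  rintro ⟨T, hT, hdisj⟩
  have h1 : ∀ i : Fin 6, ∃ e ∈ T i, e.1.1 = e₀ := by
    intro i
    obtain ⟨w⟩ := (hT i).2.2.2.connected.preconnected v u
    cases w with
    | nil => exact absurd rfl huv
    | cons h _ =>
      rw [SimpleGraph.fromEdgeSet_adj] at h
      obtain ⟨⟨e, he, hev⟩, _⟩ := h
      refine ⟨e, he, hv _ e.1.2 ?_⟩
      have : e.1.1 = s(v, _) := hev
      rw [this]
      exact Sym2.mem_mk_left _ _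
  choose e he hee using h1
  obtain ⟨i, j, hij, h⟩ := Fintype.exists_ne_map_eq_of_card_lt (fun i => (e i).2) (by simp)
  have h2 : e i = e j := by
    refine Prod.ext (Subtype.ext ?_) h
    rw [hee, hee]
  exact Set.disjoint_left.1 (hdisj hij) (he i) (h2 ▸ he j)

theorem square_star (r : V) : square (starGraph r) = ⊤ := by
  ext u v
  rw [SimpleGraph.top_adj]
  refine ⟨fun h => h.1, fun h => ⟨h, ?_⟩⟩
  by_cases hu : u = r
  · left; rw [starGraph_adj]; exact ⟨h, Or.inl hu⟩
  · by_cases hv : v = r
    · left; rw [starGraph_adj]; exact ⟨h, Or.inr hv⟩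
    · right
      exact ⟨r, by rw [starGraph_adj]; exact ⟨hu, Or.inr rfl⟩,
        by rw [starGraph_adj]; exact ⟨fun h' => hv h'.symm, Or.inl rfl⟩⟩

theorem rigid_top (p : V → E3) : GloballyRigid (⊤ : SimpleGraph V) p := by
  intro q hq u v
  rcases eq_or_ne u v with rfl | h
  · simp
  · exact hq u v h

open Cardinal in
theorem exists_generic [Finite V] : ∃ p : V → E3, Generic p := by
  obtain ⟨s, hs⟩ := exists_isTranscendenceBasis ℚ ℝ
  have hinf : Infinite s := by
    by_contra hfin
    rw [not_infinite_iff_finite] at hfin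
    have halg := hs.isAlgebraic
    have h1 := Algebra.IsAlgebraic.cardinalMk_le_max
      (Algebra.adjoin ℚ (Set.range ((↑) : s → ℝ))) ℝ
    have h2 : #(Algebra.adjoin ℚ (Set.range ((↑) : s → ℝ))) ≤ ℵ₀ := by
      refine (Algebra.cardinalMk_adjoin_le ℚ _).trans ?_
      rw [Subtype.range_coe]
      simp
    have h3 : #ℝ ≤ ℵ₀ := h1.trans (max_le h2 le_rfl)
    rw [Cardinal.mk_real] at h3
    exact absurd h3 (not_le.2 Cardinal.aleph0_lt_continuum)
  have : Finite (V × Fin 3) := inferInstance
  obtain ⟨n, ⟨g⟩⟩ := Finite.exists_equiv_fin (V × Fin 3)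
  set f : V × Fin 3 → s := fun x => Infinite.natEmbedding s (g x : ℕ) with hf
  have hfi : Function.Injective f := fun x y h =>
    g.injective (Fin.ext ((Infinite.natEmbedding s).injective h))
  refine ⟨fun v => WithLp.toLp 2 fun i => (f (v, i) : ℝ), ?_⟩
  exact hs.1.comp f hfi

/-- For every `n ≥ 5` and every graph `G` on `Fin n` that is a star: `G` has no cycles at all, its
square is globally rigid (for every generic, indeed every, `p`, and generic `p` exist) and
`4`-connected, while `5G` is not highly `6`-tree-connected (and not even `6`-tree-connected).  Hence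
the equivalence of Q1 fails for every number `n ≥ 5` of vertices. -/
theorem result :
    (∀ (n : ℕ), 5 ≤ n → ∀ r : Fin n,
      (∀ (v : Fin n) (c : (starGraph r).Walk v v), ¬ c.IsCycle) ∧
      (∃ p : Fin n → E3, Generic p ∧ GloballyRigid (square (starGraph r)) p) ∧
      (∀ p : Fin n → E3, Generic p → GloballyRigid (square (starGraph r)) p) ∧
      KConnected 4 (square (starGraph r)) ∧
      ¬ (times 5 (starGraph r)).TreeConnected Set.univ 6 ∧
      ¬ (times 5 (starGraph r)).HighlyTreeConnected 6) ∧
    (∀ n : ℕ, 5 ≤ n → ¬ ∀ G : SimpleGraph (Fin n),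
      (∀ (v : Fin n) (c : G.Walk v v), c.IsCycle → 5 ≤ c.length) →
      ((∃ p : Fin n → E3, Generic p ∧ GloballyRigid (square G) p) ↔
        KConnected 4 (square G) ∧ (times 5 G).HighlyTreeConnected 6)) := by
  have h1 : ∀ (n : ℕ), 5 ≤ n → ∀ r : Fin n,
      (∀ (v : Fin n) (c : (starGraph r).Walk v v), ¬ c.IsCycle) ∧
      (∃ p : Fin n → E3, Generic p ∧ GloballyRigid (square (starGraph r)) p) ∧
      (∀ p : Fin n → E3, Generic p → GloballyRigid (square (starGraph r)) p) ∧
      KConnected 4 (square (starGraph r)) ∧
      ¬ (times 5 (starGraph r)).TreeConnected Set.univ 6 ∧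
      ¬ (times 5 (starGraph r)).HighlyTreeConnected 6 := by
    intro n hn r
    have hnt : Nontrivial (Fin n) := Fin.nontrivial_iff_two_le.2 (by omega)
    obtain ⟨v, hv⟩ := exists_ne r
    have hleaf : ∀ e ∈ (starGraph r).edgeSet, v ∈ e → e = s(v, r) := by
      intro e he hve
      induction e using Sym2.ind with
      | _ a b =>
        rw [SimpleGraph.mem_edgeSet, starGraph_adj] at he
        rw [Sym2.mem_iff] at hve
        rcases hve with rfl | rfl
        · rcases he.2 with h | h
          · exact absurd h hv
          · rw [h]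
        · rcases he.2 with h | h
          · rw [h, Sym2.eq_swap]
          · exact absurd h hv
    have hne : s(v, r) ∈ (starGraph r).edgeSet := by
      rw [SimpleGraph.mem_edgeSet, starGraph_adj]
      exact ⟨hv, Or.inr rfl⟩
    refine ⟨fun w c => (isTree_starGraph (r := r)).isAcyclic c, ?_, ?_, ?_,
      not_treeConnected hv.symm hleaf _, fun h => ?_⟩
    · obtain ⟨p, hp⟩ := exists_generic (V := Fin n)
      exact ⟨p, hp, by rw [square_star]; exact rigid_top p⟩
    · intro p _
      rw [square_star]; exact rigid_top p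
    · intro S hS
      rw [square_star]
      have hcard : ∃ w : Fin n, w ∉ S := by
        by_contra hc
        push Not at hc
        have h3 : S = Finset.univ := Finset.eq_univ_iff_forall.2 hc
        rw [h3, Finset.card_univ, Fintype.card_fin] at hS
        omega
      obtain ⟨w, hw⟩ := hcard
      have : Nonempty {v | v ∉ S} := ⟨⟨w, hw⟩⟩
      refine ⟨fun a b => ?_⟩
      rcases eq_or_ne a b with rfl | hab
      · exact SimpleGraph.Reachable.refl _
      · refine SimpleGraph.Adj.reachable ?_
        rw [SimpleGraph.comap_adj]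
        exact fun h => hab (Subtype.ext h)
    · exact not_treeConnected hv.symm hleaf _ (h (⟨s(v, r), hne⟩, 0))
  refine ⟨h1, fun n hn H => ?_⟩
  obtain ⟨a, b, -, -, -, c⟩ := h1 n hn ⟨0, by omega⟩
  exact c ((H _ fun w cy hcy => absurd hcy (a w cy)).1 b).2

end Pool.Agent.Results.MP_f1f412_co.StarCounterexample
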